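import Pool.Agent.Helper25.LS.Defs

set_option autoImplicit false

open Filter Topology Module

noncomputable section

namespace Pool.Agent.Helper48.LS

open Pool.Agent.Helper25.LS

/-- lower bound on a compact set without eigenvalues -/
theorem lower_on_compact (Y : Type) [NormedAddCommGroup Y] [NormedSpace ℂ Y] [CompleteSpace Y]
    (T : Y →L[ℂ] Y) (hT : IsCompactOperator T) (G : Set ℂ) (hG : IsCompact G)
    (h0 : ∀ z ∈ G, z ≠ 0) (hne : ∀ z ∈ G, ∀ v : Y, T v = z • v → v = 0) :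
    ∃ c : ℝ, 0 < c ∧ ∀ z ∈ G, ∀ w : Y, c * ‖w‖ ≤ ‖z • w - T w‖ := by
  refine hG.induction_on (p := fun s => ∃ c : ℝ, 0 < c ∧ ∀ z ∈ s, ∀ w : Y,
    c * ‖w‖ ≤ ‖z • w - T w‖) ?_ ?_ ?_ ?_
  · exact ⟨1, one_pos, fun z hz => absurd hz (Set.notMem_empty z)⟩
  · rintro s t hst ⟨c, hc, h⟩
    exact ⟨c, hc, fun z hz => h z (hst hz)⟩
  · rintro s t ⟨c, hc, h⟩ ⟨c', hc', h'⟩
    refine ⟨min c c', lt_min hc hc', ?_⟩
    rintro z (hz | hz) w
    · exact (mul_le_mul_of_nonneg_right (min_le_left _ _) (norm_nonneg _)).trans (h z hz w)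
    · exact (mul_le_mul_of_nonneg_right (min_le_right _ _) (norm_nonneg _)).trans (h' z hz w)
  · intro z hz
    have hev : ¬ Module.End.HasEigenvalue (T : Module.End ℂ Y) z := by
      intro hh
      obtain ⟨v, hv⟩ := hh.exists_hasEigenvector
      exact hv.2 (hne z hz v (by simpa using hv.apply_eq_smul))
    obtain ⟨K, hK⟩ := hT.antilipschitz_of_not_hasEigenvalue (h0 z hz) hev
    have hK' : ∀ w : Y, ‖w‖ ≤ (K + 1) * ‖z • w - T w‖ := by
      intro w
      have h1 := hK.le_mul_norm_sub (x := w) (y := 0)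
      simp only [map_zero, add_zero, norm_neg] at h1
      have h2 : ‖(T - z • (1 : Y →L[ℂ] Y)) w‖ = ‖z • w - T w‖ := by
        rw [← norm_neg]
        congr 1
        simp
      rw [h2] at h1
      have h3 : (0 : ℝ) ≤ ‖z • w - T w‖ := norm_nonneg _
      calc ‖w‖ ≤ K * ‖z • w - T w‖ := h1
        _ ≤ (K + 1) * ‖z • w - T w‖ := by nlinarith
    have hKp : (0 : ℝ) < K + 1 := by positivity
    set c : ℝ := 1 / (2 * (K + 1)) with hc
    have hcp : 0 < c := by positivity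
    refine ⟨Metric.ball z c, mem_nhdsWithin_of_mem_nhds (Metric.ball_mem_nhds z hcp),
      c, hcp, ?_⟩
    intro z' hz' w
    have h1 : ‖z - z'‖ ≤ c := by
      have := Metric.mem_ball.1 hz'
      rw [dist_eq_norm, norm_sub_rev] at this
      exact this.le
    have h2 : ‖z • w - T w‖ ≤ ‖z' • w - T w‖ + c * ‖w‖ := by
      have : z • w - T w = (z' • w - T w) + (z - z') • w := by
        rw [sub_smul]; abel
      rw [this]
      refine (norm_add_le _ _).trans ?_
      gcongr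
      rw [norm_smul]
      gcongr
    have h3 := hK' w
    have h4 : 2 * c * ‖w‖ ≤ ‖z • w - T w‖ := by
      have h5 : 2 * c = 1 / (K + 1) := by
        rw [hc]; field_simp
      rw [h5, div_mul_eq_mul_div, one_mul, div_le_iff₀ hKp]
      linarith
    linarith

/-- evaluation of sequences: bounded sequences as elements of `lp` -/
theorem exists_lp (X : ℕ → Type) [∀ j, NormedAddCommGroup (X j)] (x : ∀ j, X j) (M : ℝ)
    (h : ∀ j, ‖x j‖ ≤ M) : ∃ v : lp X ⊤, ∀ j, v j = x j := by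
  refine ⟨⟨x, ?_⟩, fun j => rfl⟩
  exact memℓp_infty ⟨M, by rintro _ ⟨j, rfl⟩; exact h j⟩

theorem lower_eventually (X : ℕ → Type) [∀ j, NormedAddCommGroup (X j)] [∀ j, NormedSpace ℂ (X j)]
    (U : Ultrafilter ℕ) (Y : Type) [NormedAddCommGroup Y] [NormedSpace ℂ Y]
    (D : Ult X U Y) (A : ∀ j, X j →L[ℂ] X j) (M : ℝ) (T : Y →L[ℂ] Y) (hM : ∀ j, ‖A j‖ ≤ M)
    (hT : ∀ v w : lp X ⊤, (∀ j, w j = A j (v j)) → T (D.π v) = D.π w)
    (G : Set ℂ) (hG : IsCompact G) (hGn : G.Nonempty) (c : ℝ) (hc : 0 < c)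
    (h : ∀ z ∈ G, ∀ w : Y, c * ‖w‖ ≤ ‖z • w - T w‖) :
    ∀ᶠ j in (U : Filter ℕ), ∀ z ∈ G, ∀ v : X j, c / 2 * ‖v‖ ≤ ‖z • v - A j v‖ := by
  classical
  by_contra hcon
  rw [← Ultrafilter.eventually_not] at hcon
  obtain ⟨z₀, hz₀⟩ := hGn
  have hch : ∀ j, ∃ z ∈ G, ∃ v : X j, ‖v‖ ≤ 1 ∧
      ((¬ ∀ z ∈ G, ∀ v : X j, c / 2 * ‖v‖ ≤ ‖z • v - A j v‖) →
        ‖v‖ = 1 ∧ ‖z • v - A j v‖ ≤ c / 2) := by
    intro j
    by_cases hj : ∀ z ∈ G, ∀ v : X j, c / 2 * ‖v‖ ≤ ‖z • v - A j v‖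
    · exact ⟨z₀, hz₀, 0, by simp, fun h => absurd hj h⟩
    · have hj' := hj
      push Not at hj'
      obtain ⟨z, hz, v, hv⟩ := hj'
      have hv0 : v ≠ 0 := by
        rintro rfl
        simp at hv
      have hvp : 0 < ‖v‖ := norm_pos_iff.2 hv0
      have hn : ‖((‖v‖⁻¹ : ℝ) : ℂ)‖ = ‖v‖⁻¹ := by
        rw [Complex.norm_real, Real.norm_of_nonneg (by positivity)]
      refine ⟨z, hz, ((‖v‖⁻¹ : ℝ) : ℂ) • v, ?_, fun _ => ⟨?_, ?_⟩⟩
      · rw [norm_smul, hn, inv_mul_cancel₀ hvp.ne']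
      · rw [norm_smul, hn, inv_mul_cancel₀ hvp.ne']
      · rw [map_smul, smul_comm, ← smul_sub, norm_smul, hn]
        rw [inv_mul_le_iff₀ hvp]
        linarith
  choose z hz v hv1 hv2 using hch
  obtain ⟨a, ha, hza⟩ := hG.ultrafilter_le_nhds (U.map z) (by
    rw [Ultrafilter.coe_map, Filter.le_principal_iff]
    exact Filter.mem_map.2 (Filter.univ_mem' hz))
  have hza' : Tendsto z (U : Filter ℕ) (𝓝 a) := hza
  obtain ⟨x, hx⟩ := exists_lp X v 1 hv1
  obtain ⟨w, hw⟩ := exists_lp X (fun j => A j (v j)) M (fun j =>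
    ((A j).le_opNorm _).trans (by
      have h0 : 0 ≤ M := (norm_nonneg _).trans (hM j)
      calc ‖A j‖ * ‖v j‖ ≤ M * 1 := by gcongr; exact hM j; exact hv1 j
        _ = M := mul_one _))
  have hTw := hT x w (fun j => by rw [hw, hx])
  have h1 : Tendsto (fun j => ‖x j‖) (U : Filter ℕ) (𝓝 ‖D.π x‖) := D.lim x
  have h2 : ‖D.π x‖ = 1 := by
    refine tendsto_nhds_unique h1 ?_
    refine tendsto_const_nhds.congr' ?_
    filter_upwards [hcon] with j hj
    rw [hx]
    exact (hv2 j hj).1.symm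
  have h3 : Tendsto (fun j => ‖(a • x - w : lp X ⊤) j‖) (U : Filter ℕ)
      (𝓝 ‖D.π (a • x - w)‖) := D.lim _
  have h4 : ‖D.π (a • x - w)‖ ≤ c / 2 := by
    have h5 : Tendsto (fun j => c / 2 + ‖a - z j‖) (U : Filter ℕ) (𝓝 (c / 2)) := by
      have h6 : Tendsto (fun j => ‖a - z j‖) (U : Filter ℕ) (𝓝 ‖a - a‖) :=
        (tendsto_const_nhds.sub hza').norm
      rw [sub_self, norm_zero] at h6
      simpa using h6.const_add (c / 2)
    refine le_of_tendsto_of_tendsto h3 h5 ?_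
    filter_upwards [hcon] with j hj
    have h7 : (a • x - w : lp X ⊤) j = (z j • v j - A j (v j)) + (a - z j) • v j := by
      rw [lp.coeFn_sub, Pi.sub_apply, lp.coeFn_smul, Pi.smul_apply, hx, hw, sub_smul]
      abel
    rw [h7]
    refine (norm_add_le _ _).trans (add_le_add (hv2 j hj).2 ?_)
    rw [norm_smul]
    calc ‖a - z j‖ * ‖v j‖ ≤ ‖a - z j‖ * 1 := by gcongr; exact hv1 j
      _ = ‖a - z j‖ := mul_one _
  have h8 := h a ha (D.π x)
  rw [hTw, h2, mul_one] at h8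
  rw [map_sub, map_smul] at h4
  linarith

theorem resolvent_bound (X : Type) [NormedAddCommGroup X] [NormedSpace ℂ X] [CompleteSpace X]
    (A : X →L[ℂ] X) (hA : IsCompactOperator A) (hn : NoEig X A) (lam : ℂ) (ρ : ℝ) (hρ : 0 < ρ)
    (hlam : ρ < ‖lam‖) (c : ℝ) (hc : 0 < c)
    (h : ∀ z ∈ Metric.sphere lam ρ, ∀ v : X, c * ‖v‖ ≤ ‖z • v - A v‖) (x : X) :
    c * ‖x‖ ≤ ‖A x - lam • x‖ := by
  have hres : ∀ z : ℂ, z ≠ 0 → z ∈ resolventSet ℂ A := by
    intro z hz
    rcases hA.hasEigenvalue_or_mem_resolventSet hz with h1 | h1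
    · exfalso
      obtain ⟨v, hv⟩ := h1.exists_hasEigenvector
      exact hv.2 (hn z v hz (by simpa using hv.apply_eq_smul))
    · exact h1
  have hz0 : ∀ z ∈ Metric.closedBall lam ρ, z ≠ 0 := by
    rintro z hz rfl
    rw [Metric.mem_closedBall, dist_eq_norm, zero_sub, norm_neg] at hz
    linarith
  set F : ℂ → X := fun z => (z - lam) • (resolvent A z) x - x with hF
  have hdF : DifferentiableOn ℂ F {z | z ≠ 0} := by
    intro z hz
    have h1 := (spectrum.hasDerivAt_resolvent_const_left (hres z hz)).differentiableAt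
    have h2 : DifferentiableAt ℂ (fun z => (resolvent A z) x) z :=
      h1.clm_apply (differentiableAt_const x)
    exact (((differentiableAt_id.sub_const lam).smul h2).sub_const x).differentiableWithinAt
  have hinv : ∀ z : ℂ, z ≠ 0 → ∀ u : X, z • (resolvent A z) u - A ((resolvent A z) u) = u := by
    intro z hz u
    have h1 : (algebraMap ℂ (X →L[ℂ] X) z - A) * resolvent A z = 1 := by
      rw [resolvent]
      exact Ring.mul_inverse_cancel _ (hres z hz)
    have h2 := congrArg (fun S : X →L[ℂ] X => S u) h1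
    simpa [Algebra.algebraMap_eq_smul_one] using h2
  have hinv' : ∀ z : ℂ, z ≠ 0 → ∀ u : X, (resolvent A z) (z • u - A u) = u := by
    intro z hz u
    have h1 : resolvent A z * (algebraMap ℂ (X →L[ℂ] X) z - A) = 1 := by
      rw [resolvent]
      exact Ring.inverse_mul_cancel _ (hres z hz)
    have h2 := congrArg (fun S : X →L[ℂ] X => S u) h1
    simpa [Algebra.algebraMap_eq_smul_one] using h2
  have hmain := Complex.norm_le_of_forall_mem_frontier_norm_le (f := F)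
    (U := Metric.ball lam ρ) (C := ‖A x - lam • x‖ / c) Metric.isBounded_ball
    (hdF.diffContOnCl_ball hz0) (by
      intro z hz
      rw [frontier_ball lam hρ.ne'] at hz
      have hz' := hz0 z (Metric.sphere_subset_closedBall hz)
      have h1 : F z = (resolvent A z) (A x - lam • x) := by
        rw [hF]
        simp only
        conv_lhs => rw [← hinv' z hz' x]
        rw [hinv' z hz' x]
        conv_lhs => rw [← map_smul]
        nth_rewrite 2 [← hinv' z hz' x]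
        rw [← map_sub]
        congr 1
        rw [sub_smul]
        abel
      rw [h1, le_div_iff₀ hc, mul_comm]
      have h2 := h z hz ((resolvent A z) (A x - lam • x))
      rwa [hinv z hz'] at h2)
    (z := lam) (subset_closure (Metric.mem_ball_self hρ))
  have h3 : F lam = - x := by
    rw [hF]; simp
  rw [h3, norm_neg, le_div_iff₀ hc] at hmain
  linarith

theorem ei (h1 : S_DE) : S_EI := by
  intro X _ _ _ U Y _ _ _ D A M T hM hT hAc hAn hTc lam y hlam hy
  by_contra hy0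
  have hlp : 0 < ‖lam‖ := norm_pos_iff.2 hlam
  have hfin := h1 Y T hTc (‖lam‖ / 2) (by positivity)
  obtain ⟨ρ, hρ, hρS⟩ : ∃ ρ ∈ Set.Ioo (0 : ℝ) (‖lam‖ / 2),
      ρ ∉ (fun μ : ℂ => dist μ lam) '' {μ : ℂ | ‖lam‖ / 2 ≤ ‖μ‖ ∧ ∃ v : Y, v ≠ 0 ∧
        T v = μ • v} :=
    ((Set.Ioo_infinite (by positivity)).sdiff (hfin.image _)).nonempty.imp fun ρ h => ⟨h.1, h.2⟩
  have hGbd : ∀ z ∈ Metric.sphere lam ρ, ‖lam‖ / 2 ≤ ‖z‖ := by
    intro z hz
    rw [Metric.mem_sphere, dist_eq_norm] at hz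
    have h2 : ‖lam‖ ≤ ‖z‖ + ‖z - lam‖ := by
      calc ‖lam‖ = ‖z - (z - lam)‖ := by congr 1; abel
        _ ≤ ‖z‖ + ‖z - lam‖ := norm_sub_le _ _
    have h3 := hρ.2
    linarith
  obtain ⟨c, hc, hlow⟩ := lower_on_compact Y T hTc (Metric.sphere lam ρ) (isCompact_sphere _ _)
    (fun z hz => by
      have := hGbd z hz
      rw [← norm_pos_iff]
      linarith)
    (fun z hz v hv => by
      by_contra hv0
      exact hρS ⟨z, ⟨hGbd z hz, v, hv0, hv⟩, hz⟩)
  have hev := lower_eventually X U Y D A M T hM hT (Metric.sphere lam ρ) (isCompact_sphere _ _)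
    (NormedSpace.sphere_nonempty.2 hρ.1.le) c hc hlow
  obtain ⟨x, hx⟩ := D.surj y
  obtain ⟨w, hw⟩ := exists_lp X (fun j => A j (x j)) (M * ‖x‖) (fun j =>
    ((A j).le_opNorm _).trans (by
      have h0 : 0 ≤ M := (norm_nonneg _).trans (hM j)
      exact mul_le_mul (hM j) (lp.norm_apply_le_norm ENNReal.top_ne_zero x j)
        (norm_nonneg _) h0))
  have hTw := hT x w hw
  have h2 : Tendsto (fun j => ‖(w - lam • x : lp X ⊤) j‖) (U : Filter ℕ)
      (𝓝 ‖D.π (w - lam • x)‖) := D.lim _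
  have h3 : ‖D.π (w - lam • x)‖ = 0 := by
    rw [map_sub, map_smul, ← hTw, hx, hy, sub_self, norm_zero]
  rw [h3] at h2
  have h4 : Tendsto (fun j => c / 2 * ‖x j‖) (U : Filter ℕ) (𝓝 (c / 2 * ‖D.π x‖)) :=
    (D.lim x).const_mul _
  have h5 : c / 2 * ‖D.π x‖ ≤ 0 := by
    refine le_of_tendsto_of_tendsto h4 h2 ?_
    filter_upwards [hev] with j hj
    have h6 := resolvent_bound (X j) (A j) (hAc j) (hAn j) lam ρ hρ.1
      (by have := hρ.2; linarith) (c / 2) (by positivity) hj (x j)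
    have h7 : (w - lam • x : lp X ⊤) j = A j (x j) - lam • x j := by
      rw [lp.coeFn_sub, Pi.sub_apply, lp.coeFn_smul, Pi.smul_apply, hw]
    rw [h7]
    exact h6
  rw [hx] at h5
  have h6 : 0 < ‖y‖ := norm_pos_iff.2 hy0
  have : 0 < c / 2 * ‖y‖ := by positivity
  linarith

end Pool.Agent.Helper48.LS
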